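import Pool.Agent.Results.MP_17a322_nt.NormalCrossings
import Pool.Agent.R479.DB.Lim
import Pool.Agent.K1H84.VT.Dir

set_option autoImplicit false

/-!
# Vojta's inequality at the rational approximations of typical points

`D = D_1 + ⋯ + D_q` is a strict normal crossings divisor of `ℙ^N` over `ℚ`, `D_j` the hypersurface
`F j = 0` of degree `d j`, `S` a finite set of primes. The inequality of Vojta's main conjecture is
`m_{S,D}(x) ≤ (N + 1 + ε) h(x) + c`; it can only be expected for the rational points `x` off a proper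
closed subset. We prove it, with no exceptional subset and for ALL `D` and `S` simultaneously, for the
rational points of a random set which are near a typical point `ξ` of an arbitrary metric space to
which the rational points are mapped in an arbitrary way (for example `ξ` in `ℙ^N(ℝ)`, in `ℙ^N(ℚ_p)`,
or in a product of such spaces). For almost all `ξ` in `ℝ^N` the much stronger inequality
`m_{S,D}(x) ≤ ε h(x) + c` holds for all `D`, `S` and for all but finitely many of the (infinitely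
many) rational points `x` with `|ξ - x| ≤ H(x) ^ (-(1 + 1/N) + ε/(2N))`.
-/

namespace Pool.Agent.Results.MP_17a322_nt.TypicalApproximations

open MeasureTheory Filter Topology
open Pool.Agent.Results.MP_17a322_nt.NormalCrossings
open scoped ENNReal

/-- A divisor `D = ∑ j, {F j = 0}` of `ℙ^N` over `ℚ`, `F j` of degree `d j`, and a finite set `S`
of primes, such that `D` has strict normal crossings at its real points and at its `p`-adic points
for `p ∈ S`. -/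
def IsPair {N q : ℕ} (F : Fin q → MvPolynomial (Fin (N + 1)) ℤ) (d : Fin q → ℕ)
    (S : Finset ℕ) : Prop :=
  (∀ j, (F j).IsHomogeneous (d j)) ∧ (∀ p ∈ S, p.Prime) ∧ NormalCrossingsOver F ℝ ∧
    ∀ (p : ℕ) [Fact p.Prime], p ∈ S → NormalCrossingsOver F ℚ_[p]

/-- The rational points `x` of `ℙ^N` (given by primitive integer vectors) off `D` at which
`m_{S,D}(x) ≥ κ h(x) + c`. -/
def Large {N q : ℕ} (F : Fin q → MvPolynomial (Fin (N + 1)) ℤ) (d : Fin q → ℕ)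
    (S : Finset ℕ) (κ c : ℝ) : Set (Fin (N + 1) → ℤ) :=
  {x | IsPrimitive x ∧ (∀ j, MvPolynomial.eval x (F j) ≠ 0) ∧
    κ * Real.log (height x) + c ≤ proximity F d S x}

/-- The rational points `x = (x₀ : ⋯ : x_N)`, `x₀ ≠ 0`, of `ℙ^N` at distance at most
`H(x) ^ (-(1 + 1/N) + η)` (for the maximum norm of `ℝ^N`) from the point `ξ` of `ℝ^N ⊂ ℙ^N(ℝ)`. -/
def Near {N : ℕ} (ξ : Fin N → ℝ) (η : ℝ) : Set (Fin (N + 1) → ℤ) :=
  {x | IsPrimitive x ∧ x 0 ≠ 0 ∧
    ∀ i, |ξ i - x i.succ / x 0| ≤ (height x : ℝ) ^ (-(1 + 1 / (N : ℝ)) + η)}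

/-- the height, and `1` at the vector `0` -/
noncomputable def Ht {N : ℕ} (x : Fin (N + 1) → ℤ) : ℝ := max 1 (height x)

theorem one_le_Ht {N : ℕ} (x : Fin (N + 1) → ℤ) : 1 ≤ Ht x := le_max_left _ _

theorem Ht_eq {N : ℕ} {x : Fin (N + 1) → ℤ} (hx : IsPrimitive x) : Ht x = height x :=
  max_eq_right (by exact_mod_cast one_le_height x hx)

theorem count {N q : ℕ} {F : Fin q → MvPolynomial (Fin (N + 1)) ℤ} {d : Fin q → ℕ}
    {S : Finset ℕ} (h : IsPair F d S) (κ c : ℝ) (ε : ℝ) (hε : 0 < ε) :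
    ∃ C : ℝ, ∀ B : ℝ, 1 ≤ B → {x | x ∈ Large F d S κ c ∧ Ht x ≤ B}.Finite ∧
      (({x | x ∈ Large F d S κ c ∧ Ht x ≤ B}.ncard : ℕ) : ℝ) ≤
        C * B ^ ((N : ℝ) + max (1 - κ) 0 + ε) := by
  obtain ⟨C, -, hC⟩ := NormalCrossings.result N q F d h.1 S h.2.1 h.2.2.1 h.2.2.2 κ c ε hε
  refine ⟨C, fun B hB => ?_⟩
  have e : {x | x ∈ Large F d S κ c ∧ Ht x ≤ B} = {x : Fin (N + 1) → ℤ | IsPrimitive x ∧
      (height x : ℝ) ≤ B ∧ (∀ j, MvPolynomial.eval x (F j) ≠ 0) ∧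
        κ * Real.log (height x) + c ≤ proximity F d S x} := by
    ext x
    constructor
    · rintro ⟨⟨h1, h2, h3⟩, h4⟩
      exact ⟨h1, by rwa [Ht_eq h1] at h4, h2, h3⟩
    · rintro ⟨h1, h4, h2, h3⟩
      exact ⟨⟨h1, h2, h3⟩, by rwa [Ht_eq h1]⟩
  rw [e]
  exact hC B hB

theorem Large_mono {N q : ℕ} {F : Fin q → MvPolynomial (Fin (N + 1)) ℤ} {d : Fin q → ℕ}
    {S : Finset ℕ} {κ κ' c c' : ℝ} (hκ : κ' ≤ κ) (hc : c' ≤ c) :
    Large F d S κ c ⊆ Large F d S κ' c' := by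
  rintro x ⟨h1, h2, h3⟩
  refine ⟨h1, h2, le_trans ?_ h3⟩
  have h4 : 0 ≤ Real.log (height x) := Real.log_natCast_nonneg _
  nlinarith [mul_le_mul_of_nonneg_right hκ h4]

/-- the index set of all the data `(D, S, κ, c)`, `κ` rational, `c` an integer -/
abbrev Idx (N : ℕ) : Type :=
  Σ q : ℕ, (Fin q → MvPolynomial (Fin (N + 1)) ℤ) × (Fin q → ℕ) × Finset ℕ × ℚ × ℤ

instance (N : ℕ) : Countable (Idx N) := by
  unfold Idx
  have : Countable (MvPolynomial (Fin (N + 1)) ℤ) := by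
    have h := MvPolynomial.cardinalMk_le_max (σ := Fin (N + 1)) (R := ℤ)
    rw [← Cardinal.mk_le_aleph0_iff]
    refine h.trans ?_
    simp
  infer_instance

theorem summ {N q : ℕ} {F : Fin q → MvPolynomial (Fin (N + 1)) ℤ} {d : Fin q → ℕ}
    {S : Finset ℕ} (h : IsPair F d S) (κ c : ℝ) {p : ℝ} (hp : (N : ℝ) + max (1 - κ) 0 < p) :
    Summable fun x : Large F d S κ c => Ht x.1 ^ (-p) := by
  set a : ℝ := (N : ℝ) + max (1 - κ) 0 with ha
  have ha0 : 0 ≤ a := by positivity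
  obtain ⟨C, hC⟩ := count h κ c ((p - a) / 2) (by linarith)
  refine Pool.Agent.R479.DA.summable_heights (fun x : Large F d S κ c => Ht x.1)
    (fun x => one_le_Ht _) (s := a + (p - a) / 2) (by linarith) (by linarith) (C := C) ?_
  intro X hX
  obtain ⟨h1, h2⟩ := hC X hX
  have hinj : Set.InjOn (Subtype.val : Large F d S κ c → (Fin (N + 1) → ℤ))
      {x | Ht x.1 ≤ X} := Subtype.val_injective.injOn
  have himg : (Subtype.val : Large F d S κ c → (Fin (N + 1) → ℤ)) '' {x | Ht x.1 ≤ X} =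
      {x | x ∈ Large F d S κ c ∧ Ht x ≤ X} := by
    ext x
    constructor
    · rintro ⟨u, hu, rfl⟩
      exact ⟨u.2, hu⟩
    · rintro ⟨hx1, hx2⟩
      exact ⟨⟨x, hx1⟩, hx2, rfl⟩
  constructor
  · rw [← himg] at h1
    exact h1.of_finite_image hinj
  · rw [← himg, hinj.ncard_image] at h2
    exact h2

/-- a rational number slightly below -/
theorem exists_rat_below {a κ s : ℝ} (h : a + max (1 - κ) 0 < s) :
    ∃ r : ℚ, (r : ℝ) ≤ κ ∧ a + max (1 - (r : ℝ)) 0 < s := by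
  obtain ⟨r, h1, h2⟩ := exists_rat_btwn (show κ - (s - a - max (1 - κ) 0) < κ by linarith)
  refine ⟨r, h2.le, ?_⟩
  have h3 : max (1 - (r : ℝ)) 0 ≤ max (1 - κ) 0 + (κ - r) := by
    apply max_le
    · have := le_max_left (1 - κ) 0
      linarith
    · have := le_max_right (1 - κ) 0
      linarith
  linarith

/-- random sets of rational points -/
theorem random {N : ℕ} {Ω : Type} [MeasurableSpace Ω] (P : Measure Ω)
    (A : (Fin (N + 1) → ℤ) → Set Ω) (C s : ℝ)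
    (hA : ∀ x, IsPrimitive x → P (A x) ≤ ENNReal.ofReal (C * (height x : ℝ) ^ (-s))) :
    ∀ᵐ ω ∂P, ∀ κ : ℝ, (N : ℝ) + max (1 - κ) 0 < s →
      ∀ (q : ℕ) (F : Fin q → MvPolynomial (Fin (N + 1)) ℤ) (d : Fin q → ℕ) (S : Finset ℕ),
      IsPair F d S → ∀ c : ℝ, {x | x ∈ Large F d S κ c ∧ ω ∈ A x}.Finite := by
  have key : ∀ i : Idx N, ∀ᵐ ω ∂P, (N : ℝ) + max (1 - (i.2.2.2.2.1 : ℝ)) 0 < s →
      IsPair i.2.1 i.2.2.1 i.2.2.2.1 →
      {x | x ∈ Large i.2.1 i.2.2.1 i.2.2.2.1 (i.2.2.2.2.1 : ℝ) (i.2.2.2.2.2 : ℝ) ∧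
        ω ∈ A x}.Finite := by
    intro i
    by_cases h1 : (N : ℝ) + max (1 - (i.2.2.2.2.1 : ℝ)) 0 < s
    · by_cases h2 : IsPair i.2.1 i.2.2.1 i.2.2.2.1
      · have h3 := (summ h2 (i.2.2.2.2.1 : ℝ) (i.2.2.2.2.2 : ℝ) h1).mul_left |C|
        have h4 : ∑' x : Large i.2.1 i.2.2.1 i.2.2.2.1 (i.2.2.2.2.1 : ℝ) (i.2.2.2.2.2 : ℝ),
            P (A x.1) ≠ ⊤ := by
          refine ne_top_of_le_ne_top (h3.tsum_ofReal_ne_top) (ENNReal.tsum_le_tsum fun x => ?_)
          refine (hA x.1 x.2.1).trans (ENNReal.ofReal_le_ofReal ?_)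
          rw [Ht_eq x.2.1]
          exact mul_le_mul_of_nonneg_right (le_abs_self _) (by positivity)
        filter_upwards [ae_finite_setOfPred_mem h4] with ω hω _ _
        have h5 := hω.image Subtype.val
        refine h5.subset ?_
        rintro x ⟨hx1, hx2⟩
        exact ⟨⟨x, hx1⟩, hx2, rfl⟩
      · exact Eventually.of_forall fun ω _ h => absurd h h2
    · exact Eventually.of_forall fun ω h => absurd h h1
  filter_upwards [ae_all_iff.2 key] with ω hω κ hκ q F d S hp c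
  obtain ⟨r, hr1, hr2⟩ := exists_rat_below hκ
  have h := hω ⟨q, F, d, S, r, ⌊c⌋⟩ hr2 hp
  refine h.subset ?_
  rintro x ⟨hx1, hx2⟩
  exact ⟨Large_mono hr1 (Int.floor_le c) hx1, hx2⟩

/-- almost surely the sum over the random set converges -/
theorem ae_sum {N : ℕ} {Ω : Type} [MeasurableSpace Ω] (P : Measure Ω)
    (A : (Fin (N + 1) → ℤ) → Set Ω) (hAm : ∀ x, MeasurableSet (A x)) (C u : ℝ)
    (hA : ∀ x, IsPrimitive x → P (A x) ≤ ENNReal.ofReal (C * (height x : ℝ) ^ (-u)))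
    {q : ℕ} {F : Fin q → MvPolynomial (Fin (N + 1)) ℤ} {d : Fin q → ℕ} {S : Finset ℕ}
    (h : IsPair F d S) (κ c : ℝ) {v : ℝ} (hv : (N : ℝ) + max (1 - κ) 0 < u + v) :
    ∀ᵐ ω ∂P, ∑' x : {x // x ∈ Large F d S κ c ∧ ω ∈ A x}, ENNReal.ofReal (Ht x.1 ^ (-v)) ≠ ⊤ := by
  have h1 := (summ h κ c hv).mul_left |C|
  set f : Large F d S κ c → Ω → ℝ≥0∞ := fun x =>
    (A x.1).indicator fun _ => ENNReal.ofReal (Ht x.1 ^ (-v)) with hf
  have hfm : ∀ x, Measurable (f x) := fun x => measurable_const.indicator (hAm x.1)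
  have h2 : ∫⁻ ω, ∑' x, f x ω ∂P ≠ ⊤ := by
    rw [lintegral_tsum fun x => (hfm x).aemeasurable]
    refine ne_top_of_le_ne_top h1.tsum_ofReal_ne_top (ENNReal.tsum_le_tsum fun x => ?_)
    have h0 : 0 < Ht x.1 := lt_of_lt_of_le one_pos (one_le_Ht _)
    rw [hf]
    simp only
    rw [lintegral_indicator_const (hAm x.1)]
    calc ENNReal.ofReal (Ht x.1 ^ (-v)) * P (A x.1) ≤
          ENNReal.ofReal (Ht x.1 ^ (-v)) * ENNReal.ofReal (|C| * Ht x.1 ^ (-u)) := by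
          refine mul_le_mul_right ((hA x.1 x.2.1).trans (ENNReal.ofReal_le_ofReal ?_)) _
          rw [Ht_eq x.2.1]
          exact mul_le_mul_of_nonneg_right (le_abs_self _) (by positivity)
      _ = ENNReal.ofReal (|C| * Ht x.1 ^ (-(u + v))) := by
          rw [← ENNReal.ofReal_mul (by positivity)]
          congr 1
          rw [neg_add, Real.rpow_add h0]
          ring
  have h3 := ae_lt_top' (AEMeasurable.tsum fun x => (hfm x).aemeasurable) h2
  filter_upwards [h3] with ω hω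
  refine ne_top_of_le_ne_top hω.ne ?_
  have hinj : Function.Injective (fun x : {x // x ∈ Large F d S κ c ∧ ω ∈ A x} =>
      (⟨x.1, x.2.1⟩ : Large F d S κ c)) := by
    intro x y hxy
    apply Subtype.ext
    simpa using hxy
  refine le_trans (ENNReal.tsum_le_tsum fun x => ?_)
    (ENNReal.tsum_comp_le_tsum_of_injective hinj fun x => f x ω)
  rw [hf]
  simp only
  rw [Set.indicator_of_mem x.2.2]

/-- the exceptional sets are small -/
theorem measure_exc {N : ℕ} {M : Type} [MetricSpace M] [MeasurableSpace M] [BorelSpace M]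
    (φ : (Fin (N + 1) → ℤ) → M) (T : Set (Fin (N + 1) → ℤ)) {s r t : ℝ} (hr : 0 < r) (hrs : r < s)
    (hsum : ∑' x : T, ENNReal.ofReal (Ht x.1 ^ (-(r * t))) ≠ ⊤) :
    μH[s] {ξ : M | {x | x ∈ T ∧ dist ξ (φ x) ≤ Ht x ^ (-t)}.Infinite} = 0 := by
  have hs : 0 < s := hr.trans hrs
  have hpos : ∀ x : Fin (N + 1) → ℤ, 0 < Ht x := fun x => lt_of_lt_of_le one_pos (one_le_Ht x)
  have h1 : Summable fun x : T => Ht x.1 ^ (-(r * t)) := by
    have h := ENNReal.summable_toReal hsum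
    refine h.congr fun x => ?_
    rw [ENNReal.toReal_ofReal (Real.rpow_nonneg (hpos _).le _)]
  set U : T → Set M := fun x => Metric.closedBall (φ x.1) (Ht x.1 ^ (-t)) with hU
  have h2 := Pool.Agent.R479.DB.dimH_limsup U (fun x => 2 * Ht x.1 ^ (-t)) (fun x => by
      have := hpos x.1
      positivity) (fun x => by
        rw [hU]
        simp only
        have h0 : 0 ≤ Ht x.1 ^ (-t) := Real.rpow_nonneg (hpos x.1).le _
        refine Metric.ediam_le_of_forall_dist_le fun a ha b hb => ?_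
        rw [Metric.mem_closedBall] at ha hb
        have := dist_triangle_right a b (φ x.1)
        linarith) hr (by
      refine (h1.mul_left ((2 : ℝ) ^ r)).congr fun x => ?_
      rw [Real.mul_rpow (by norm_num) (Real.rpow_nonneg (hpos x.1).le _),
        ← Real.rpow_mul (hpos x.1).le]
      congr 2
      ring)
  have h3 : ((Real.toNNReal s : NNReal) : ℝ) = s := Real.coe_toNNReal s hs.le
  have h4 : μH[s] {ξ : M | {x : T | ξ ∈ U x}.Infinite} = 0 := by
    rw [← h3]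
    apply hausdorffMeasure_of_dimH_lt
    refine h2.trans_lt ?_
    have h5 : ((Real.toNNReal s : NNReal) : ℝ≥0∞) = ENNReal.ofReal s := rfl
    rw [h5]
    exact (ENNReal.ofReal_lt_ofReal_iff hs).2 hrs
  refine measure_mono_null ?_ h4
  intro ξ hξ
  rw [Set.mem_ofPred_eq] at hξ ⊢
  intro hfin
  apply hξ
  refine (hfin.image Subtype.val).subset ?_
  rintro x ⟨hx1, hx2⟩
  exact ⟨⟨x, hx1⟩, Metric.mem_closedBall.2 hx2, rfl⟩

/-- typical points of metric spaces, random sets of rational points -/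
theorem typical {N : ℕ} {Ω : Type} [MeasurableSpace Ω] (P : Measure Ω)
    (A : (Fin (N + 1) → ℤ) → Set Ω) (hAm : ∀ x, MeasurableSet (A x)) (C u : ℝ)
    (hA : ∀ x, IsPrimitive x → P (A x) ≤ ENNReal.ofReal (C * (height x : ℝ) ^ (-u)))
    {M : Type} [MetricSpace M] [MeasurableSpace M] [BorelSpace M]
    (φ : Ω → (Fin (N + 1) → ℤ) → M) {s : ℝ} (hs : 0 ≤ s) :
    ∀ᵐ ω ∂P, ∃ E : Set M, μH[s] E = 0 ∧ ∀ ξ : M, ξ ∉ E → ∀ τ κ : ℝ, 0 < τ →
      (N : ℝ) + max (1 - κ) 0 < u + s * τ →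
      ∀ (q : ℕ) (F : Fin q → MvPolynomial (Fin (N + 1)) ℤ) (d : Fin q → ℕ) (S : Finset ℕ),
      IsPair F d S → ∀ c : ℝ,
        {x | x ∈ Large F d S κ c ∧ ω ∈ A x ∧
          dist ξ (φ ω x) ≤ (height x : ℝ) ^ (-τ)}.Finite := by
  rcases hs.eq_or_lt with hs0 | hs0
  · filter_upwards [random P A C u hA] with ω hω
    refine ⟨∅, measure_empty, fun ξ _ τ κ _ hκ q F d S hp c => ?_⟩
    rw [← hs0, zero_mul, add_zero] at hκ
    exact (hω κ hκ q F d S hp c).subset fun x hx => ⟨hx.1, hx.2.1⟩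
  set Cd : Idx N × ℚ × ℚ → Prop := fun i => 0 < i.2.1 ∧ (i.2.1 : ℝ) < s ∧
    (N : ℝ) + max (1 - (i.1.2.2.2.2.1 : ℝ)) 0 < u + i.2.1 * i.2.2 ∧
    IsPair i.1.2.1 i.1.2.2.1 i.1.2.2.2.1 with hCd
  have key : ∀ i : {i : Idx N × ℚ × ℚ // Cd i}, ∀ᵐ ω ∂P,
      ∑' x : {x // x ∈ Large i.1.1.2.1 i.1.1.2.2.1 i.1.1.2.2.2.1 (i.1.1.2.2.2.2.1 : ℝ)
        (i.1.1.2.2.2.2.2 : ℝ) ∧ ω ∈ A x},
        ENNReal.ofReal (Ht x.1 ^ (-((i.1.2.1 : ℝ) * i.1.2.2))) ≠ ⊤ := by
    intro i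
    exact ae_sum P A hAm C u hA i.2.2.2.2 _ _ i.2.2.2.1
  filter_upwards [ae_all_iff.2 key] with ω hω
  refine ⟨⋃ i : {i : Idx N × ℚ × ℚ // Cd i}, {ξ : M | {x | x ∈ {x | x ∈ Large i.1.1.2.1
    i.1.1.2.2.1 i.1.1.2.2.2.1 (i.1.1.2.2.2.2.1 : ℝ) (i.1.1.2.2.2.2.2 : ℝ) ∧ ω ∈ A x} ∧
      dist ξ (φ ω x) ≤ Ht x ^ (-(i.1.2.2 : ℝ))}.Infinite}, ?_, ?_⟩
  · rw [measure_iUnion_null_iff]
    intro i
    exact measure_exc (φ ω) _ (by exact_mod_cast i.2.1) i.2.2.1 (hω i)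
  · intro ξ hξ τ κ hτ hκ q F d S hp c
    -- the exponents `r < s` and `t < τ`
    obtain ⟨r, hr0, hrs, hr⟩ : ∃ r : ℚ, 0 < r ∧ (r : ℝ) < s ∧
        (N : ℝ) + max (1 - κ) 0 < u + r * τ := by
      obtain ⟨r, hr1, hr2⟩ := exists_rat_btwn
        (show max 0 (((N : ℝ) + max (1 - κ) 0 - u) / τ) < s by
          rw [max_lt_iff, div_lt_iff₀ hτ]
          exact ⟨hs0, by linarith⟩)
      rw [max_lt_iff, div_lt_iff₀ hτ] at hr1
      exact ⟨r, by exact_mod_cast hr1.1, hr2, by linarith⟩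
    have hr0' : (0 : ℝ) < r := by exact_mod_cast hr0
    obtain ⟨t, ht1, ht2⟩ := exists_rat_btwn
      (show ((N : ℝ) + max (1 - κ) 0 - u) / r < τ by
        rw [div_lt_iff₀ hr0']
        linarith [mul_comm (r : ℝ) τ])
    rw [div_lt_iff₀ hr0'] at ht1
    obtain ⟨k, hk1, hk2⟩ := exists_rat_below (show (N : ℝ) + max (1 - κ) 0 < u + r * t by
      linarith [mul_comm (r : ℝ) t])
    have h1 : ξ ∉ {ξ : M | {x | x ∈ {x | x ∈ Large F d S (k : ℝ) ((⌊c⌋ : ℤ) : ℝ) ∧ ω ∈ A x} ∧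
        dist ξ (φ ω x) ≤ Ht x ^ (-(t : ℝ))}.Infinite} := by
      intro h
      apply hξ
      rw [Set.mem_iUnion]
      exact ⟨⟨(⟨q, F, d, S, k, ⌊c⌋⟩, r, t), hr0, hrs, hk2, hp⟩, h⟩
    have h2 : {x | x ∈ {x | x ∈ Large F d S (k : ℝ) ((⌊c⌋ : ℤ) : ℝ) ∧ ω ∈ A x} ∧
        dist ξ (φ ω x) ≤ Ht x ^ (-(t : ℝ))}.Finite := by
      by_contra h
      exact h1 h
    refine h2.subset ?_
    rintro x ⟨hx1, hx3, hx2⟩
    refine ⟨⟨Large_mono hk1 (Int.floor_le c) hx1, hx3⟩, hx2.trans ?_⟩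
    rw [Ht_eq hx1.1]
    have h3 : (1 : ℝ) ≤ height x := by exact_mod_cast one_le_height x hx1.1
    exact Real.rpow_le_rpow_of_exponent_le h3 (by linarith)

/-- typical points of metric spaces -/
theorem metric {N : ℕ} {M : Type} [MetricSpace M] [MeasurableSpace M] [BorelSpace M]
    (φ : (Fin (N + 1) → ℤ) → M) {s : ℝ} (hs : 0 ≤ s) :
    ∃ E : Set M, μH[s] E = 0 ∧ ∀ ξ : M, ξ ∉ E → ∀ τ κ : ℝ, 0 < τ →
      (N : ℝ) + max (1 - κ) 0 < s * τ →
      ∀ (q : ℕ) (F : Fin q → MvPolynomial (Fin (N + 1)) ℤ) (d : Fin q → ℕ) (S : Finset ℕ),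
      IsPair F d S → ∀ c : ℝ,
        {x | x ∈ Large F d S κ c ∧ dist ξ (φ x) ≤ (height x : ℝ) ^ (-τ)}.Finite := by
  have h := typical (N := N) (Measure.dirac ()) (fun _ => Set.univ) (fun _ => MeasurableSet.univ)
    1 0 (fun x _ => by simp) (fun _ => φ) hs
  have h1 : (ae (Measure.dirac ())).NeBot := by
    rw [ae_neBot]
    intro h0
    have := congrArg (fun μ => μ Set.univ) h0
    simp at this
  obtain ⟨ω, E, hE0, hE⟩ := h.exists
  refine ⟨E, hE0, fun ξ hξ τ κ hτ hκ q F d S hp c => ?_⟩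
  exact (hE ξ hξ τ κ hτ (by linarith) q F d S hp c).subset fun x hx => ⟨hx.1, Set.mem_univ _, hx.2⟩

theorem finite_height {N : ℕ} (B : ℕ) : {x : Fin (N + 1) → ℤ | height x ≤ B}.Finite := by
  apply (Set.finite_Icc (fun _ : Fin (N + 1) => -(B : ℤ)) (fun _ => (B : ℤ))).subset
  intro x hx
  have h1 : height x ≤ B := hx
  have h2 : ∀ i, (x i).natAbs ≤ B := fun i =>
    (Finset.le_sup (f := fun i => (x i).natAbs) (Finset.mem_univ i)).trans h1
  rw [Set.mem_Icc]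
  constructor
  · intro i
    have := h2 i
    show -(B : ℤ) ≤ x i
    omega
  · intro i
    have := h2 i
    show x i ≤ (B : ℤ)
    omega

/-- the points of Dirichlet's theorem -/
theorem infinite_near {N : ℕ} (hN : 1 ≤ N) (ξ : Fin N → ℝ) (i0 : Fin N)
    (hirr : ∀ r : ℚ, ξ i0 ≠ r) {η : ℝ} (hη : 0 < η) : (Near ξ η).Infinite := by
  have hNR : (0 : ℝ) < N := by exact_mod_cast hN
  set a : ℝ := 1 + 1 / (N : ℝ) with ha
  have ha0 : 0 < a := by positivity
  set K : ℝ := 1 + ∑ i, |ξ i| with hK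
  have hK1 : 1 ≤ K := by
    have : 0 ≤ ∑ i, |ξ i| := Finset.sum_nonneg fun i _ => abs_nonneg _
    linarith
  set T : Set (Fin (N + 1) → ℤ) := {x | Finset.univ.gcd x = 1 ∧ 0 < x 0 ∧
    ∀ i, |ξ i - x i.succ / x 0| ≤ (x 0 : ℝ) ^ (-a)} with hT
  -- `T` is infinite
  have hTinf : T.Infinite := by
    intro hfin
    have hpos : ∀ x : Fin (N + 1) → ℤ, 0 < |ξ i0 - x i0.succ / x 0| := by
      intro x
      rw [abs_pos, sub_ne_zero]
      have := hirr ((x i0.succ : ℚ) / x 0)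
      push_cast at this
      exact this
    obtain ⟨δ, hδ0, hδ⟩ : ∃ δ : ℝ, 0 < δ ∧ ∀ x ∈ T, δ ≤ |ξ i0 - x i0.succ / x 0| := by
      rcases T.eq_empty_or_nonempty with h | h
      · exact ⟨1, one_pos, fun x hx => by rw [h] at hx; exact absurd hx (Set.notMem_empty x)⟩
      · obtain ⟨x, -, hx2⟩ := Set.exists_min_image T (fun x => |ξ i0 - x i0.succ / x 0|) hfin h
        exact ⟨_, hpos x, hx2⟩
    obtain ⟨q, hq⟩ := exists_nat_gt (1 / δ)
    have hq0 : (0 : ℝ) < q := lt_trans (by positivity) hq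
    obtain ⟨x, hx1, hx2, hx3, hx4⟩ := Pool.Agent.K1H84.VT.dirichlet_primitive hN q
      (by exact_mod_cast hq0) ξ
    have h1 := hδ x ⟨hx1, hx2, hx4⟩
    have h2 := h1.trans (hx3 i0)
    rw [div_lt_iff₀ hδ0] at hq
    rw [le_div_iff₀ hq0] at h2
    linarith [mul_comm δ (q : ℝ)]
  intro hfin
  obtain ⟨B, hB⟩ := exists_nat_ge ((K + 1) ^ (a / η))
  apply hTinf
  refine (hfin.union (finite_height B)).subset ?_
  rintro x ⟨hx1, hx2, hx3⟩
  by_cases hxB : height x ≤ B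
  · exact Or.inr hxB
  left
  refine ⟨hx1, hx2.ne', fun i => (hx3 i).trans ?_⟩
  push Not at hxB
  have hH : (K + 1) ^ (a / η) ≤ height x := hB.trans (by exact_mod_cast hxB.le)
  have hH1 : (1 : ℝ) ≤ height x := le_trans (Real.one_le_rpow (by linarith) (by positivity)) hH
  have hx0 : (1 : ℝ) ≤ x 0 := by exact_mod_cast hx2
  -- the height is at most a multiple of `x 0`
  have hle : (height x : ℝ) ≤ (K + 1) * x 0 := by
    obtain ⟨l, hl⟩ := exists_height x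
    refine hl.trans ?_
    refine Fin.cases ?_ (fun m => ?_) l
    · rw [abs_of_pos (by linarith)]
      nlinarith
    · have h1 := hx3 m
      have h2 : (x 0 : ℝ) ^ (-a) ≤ 1 := Real.rpow_le_one_of_one_le_of_nonpos hx0 (by linarith)
      have h3 : |ξ m| ≤ ∑ i, |ξ i| :=
        Finset.single_le_sum (f := fun i => |ξ i|) (fun i _ => abs_nonneg _) (Finset.mem_univ m)
      have h4 : |(x m.succ : ℝ) / x 0| ≤ K := by
        have h5 : |(x m.succ : ℝ) / x 0| ≤ |ξ m| + |ξ m - x m.succ / x 0| := by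
          have := abs_sub (ξ m) (ξ m - x m.succ / x 0)
          rwa [sub_sub_cancel] at this
        rw [hK]
        linarith
      rw [abs_div, abs_of_pos (by linarith : (0 : ℝ) < x 0), div_le_iff₀ (by linarith)] at h4
      nlinarith
  have hH0 : (0 : ℝ) < height x := by linarith
  have h1 : (height x : ℝ) / (K + 1) ≤ x 0 := by
    rw [div_le_iff₀ (by linarith)]
    linarith [mul_comm (K + 1) (x 0 : ℝ)]
  have h2 : (x 0 : ℝ) ^ (-a) ≤ ((height x : ℝ) / (K + 1)) ^ (-a) :=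
    Real.rpow_le_rpow_of_nonpos (by positivity) h1 (by linarith)
  refine h2.trans ?_
  rw [Real.div_rpow hH0.le (by linarith), Real.rpow_neg (by linarith : (0 : ℝ) ≤ K + 1), div_inv_eq_mul,
    Real.rpow_add hH0]
  refine mul_le_mul_of_nonneg_left ?_ (by positivity)
  calc (K + 1) ^ a = ((K + 1) ^ (a / η)) ^ η := by
        rw [← Real.rpow_mul (by linarith), div_mul_cancel₀ _ hη.ne']
    _ ≤ (height x : ℝ) ^ η := Real.rpow_le_rpow (by positivity) hH hη.le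

/-- almost all points of `ℝ^N` -/
theorem almost_all {N : ℕ} (hN : 1 ≤ N) : ∀ᵐ ξ : Fin N → ℝ, ∀ ε : ℝ, 0 < ε → ε ≤ 1 →
    (Near ξ (ε / (2 * N))).Infinite ∧
    ∀ (q : ℕ) (F : Fin q → MvPolynomial (Fin (N + 1)) ℤ) (d : Fin q → ℕ) (S : Finset ℕ),
      IsPair F d S → ∀ c : ℝ, (Near ξ (ε / (2 * N)) ∩ Large F d S ε c).Finite := by
  have hNR : (0 : ℝ) < N := by exact_mod_cast hN
  obtain ⟨E, hE0, hE⟩ := metric (N := N) (M := Fin N → ℝ)
    (fun x i => (x i.succ : ℝ) / x 0) hNR.le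
  have hE1 : (volume : Measure (Fin N → ℝ)) E = 0 := by
    have h := hausdorffMeasure_pi_real (ι := Fin N)
    rw [Fintype.card_fin] at h
    rw [← h]
    exact hE0
  have hirr : ∀ᵐ ξ : Fin N → ℝ, ∀ r : ℚ, ξ ⟨0, hN⟩ ≠ r := by
    rw [ae_all_iff]
    intro r
    rw [volume_pi]
    exact Measure.ae_eval_ne (μ := fun _ : Fin N => (volume : Measure ℝ)) ⟨0, hN⟩ (r : ℝ)
  filter_upwards [measure_eq_zero_iff_ae_notMem.1 hE1, hirr] with ξ hξ hξ' ε hε hε1
  refine ⟨infinite_near hN ξ ⟨0, hN⟩ hξ' (by positivity), fun q F d S hp c => ?_⟩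
  have h1 : (N : ℝ) + max (1 - ε) 0 < N * (1 + 1 / (N : ℝ) - ε / (2 * N)) := by
    rw [max_eq_left (by linarith)]
    have e : (N : ℝ) * (1 + 1 / (N : ℝ) - ε / (2 * N)) = N + 1 - ε / 2 := by
      field_simp
    rw [e]
    linarith
  have h2 : (0 : ℝ) < 1 + 1 / (N : ℝ) - ε / (2 * N) := by
    have h3 : ε / (2 * N) ≤ 1 / N := by
      rw [div_le_div_iff₀ (by positivity) hNR]
      nlinarith
    linarith
  refine (hE ξ hξ _ ε h2 h1 q F d S hp c).subset ?_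
  rintro x ⟨⟨hx1, hx2, hx3⟩, hx4⟩
  refine ⟨hx4, ?_⟩
  rw [dist_pi_le_iff (by positivity)]
  intro i
  rw [Real.dist_eq]
  refine (hx3 i).trans (le_of_eq ?_)
  congr 1
  ring

/-- **Main theorem.** Let `N ≥ 1`.

(1) Let a random set of rational points of `ℙ^N` be given, which contains `x` with probability at
most `C H(x) ^ (-u)` (for `u = 0`, `C = 1` it may be the set of all rational points), and a map `φ`
from it to a metric space `M`, and let `s ≥ 0`. Almost surely the following holds for all `ξ` in `M`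
outside a set of `s`-dimensional Hausdorff measure zero (for `s = 0`: for all `ξ`), for all `τ > 0`
and `κ` with `N + max (1 - κ) 0 < u + s τ` (if `κ ≥ 1`: `N < u + s τ`), ALL pairs `(D, S)` and all
`c`: all but finitely many of the rational points `x` off `D` which are in the random set and whose
images `φ x` are at distance at most `H(x) ^ (-τ)` from `ξ` satisfy `m_{S,D}(x) < κ h(x) + c`. For
`κ = N + 1 + ε` this is Vojta's inequality.

(2) In particular, for almost all `ξ` in `ℝ^N` and all `0 < ε ≤ 1`: there are infinitely many rational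
points `x` at distance at most `H(x) ^ (-(1 + 1/N) + ε/(2N))` from `ξ`, and for ALL pairs `(D, S)` and
all `c` all but finitely many of those off `D` satisfy `m_{S,D}(x) < ε h(x) + c`. -/
theorem result (N : ℕ) (hN : 1 ≤ N) :
    (∀ (Ω : Type) [MeasurableSpace Ω] (P : Measure Ω) (A : (Fin (N + 1) → ℤ) → Set Ω) (C u : ℝ),
      (∀ x, MeasurableSet (A x)) →
      (∀ x, IsPrimitive x → P (A x) ≤ ENNReal.ofReal (C * (height x : ℝ) ^ (-u))) →
      ∀ (M : Type) [MetricSpace M] [MeasurableSpace M] [BorelSpace M]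
      (φ : Ω → (Fin (N + 1) → ℤ) → M) (s : ℝ), 0 ≤ s →
      ∀ᵐ ω ∂P, ∃ E : Set M, μH[s] E = 0 ∧ ∀ ξ : M, ξ ∉ E → ∀ τ κ : ℝ, 0 < τ →
        (N : ℝ) + max (1 - κ) 0 < u + s * τ →
        ∀ (q : ℕ) (F : Fin q → MvPolynomial (Fin (N + 1)) ℤ) (d : Fin q → ℕ) (S : Finset ℕ),
        IsPair F d S → ∀ c : ℝ,
          {x | x ∈ Large F d S κ c ∧ ω ∈ A x ∧
            dist ξ (φ ω x) ≤ (height x : ℝ) ^ (-τ)}.Finite) ∧
    ∀ᵐ ξ : Fin N → ℝ, ∀ ε : ℝ, 0 < ε → ε ≤ 1 →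
      (Near ξ (ε / (2 * N))).Infinite ∧
      ∀ (q : ℕ) (F : Fin q → MvPolynomial (Fin (N + 1)) ℤ) (d : Fin q → ℕ) (S : Finset ℕ),
        IsPair F d S → ∀ c : ℝ, (Near ξ (ε / (2 * N)) ∩ Large F d S ε c).Finite :=
  ⟨fun _ _ P A C u hAm hA _ _ _ _ φ _ hs => typical P A hAm C u hA φ hs, almost_all hN⟩

end Pool.Agent.Results.MP_17a322_nt.TypicalApproximations
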